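import Pool.Agent.H76.F4.Num
import Pool.Agent.H60.PF.Defs
import Pool.Agent.H72.FB4.Lef

/-!
# MP_5ee2d0_ag: the intersection form of `X` from the classes of b-divisors
-/

namespace Pool.Agent.H72.TH

open Pool.Agent.H76.F4 Pool.Agent.H15.XF Pool.Agent.H60.PF Pool.Agent.H72.FB4

variable {r : ℕ} {X : Var r} {B : BCl r} {f : Vec r → Vec r → ℝ}

/-- the ample class has positive degree -/
theorem A4_pos (G : B.D) (hG : B.X G) :
    0 < B.I (B.pb B.A) (B.pb B.A) (B.pb B.A) (B.pb B.A) := by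
  obtain ⟨t, ht⟩ := B.ample (-B.cl G)
  have h1 := B.nonneg _ _ _ _ ht B.nef_A B.nef_A B.nef_A
  have h2 := B.nonneg _ _ _ _ B.nef_A B.nef_A B.nef_A B.nef_A
  rw [← sub_eq_add_neg, BCl.pb_sub, BCl.pb_smul, BCl.I1_sub, BCl.I1_smul] at h1
  have h3 := B.prime_pos G hG
  refine lt_of_le_of_ne h2 fun h4 => ?_
  rw [← h4, mul_zero] at h1
  linarith

/-- the intersection form, the prime divisors and the ample class of `X` -/
theorem form_of (K : Link X B) (ne : Nonempty X.Pr) (hA : X.num.A = B.A)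
    (num : ∀ x y, B.I (B.pb x) (B.pb y) (B.pb B.A) (B.pb B.A) = f x y)
    (mov : ∀ x, B.Nef (B.pb x) → X.num.Mov x) : X.num.Form f where
  ne := ne
  add x y z := by rw [← num, ← num, ← num, BCl.pb_add, BCl.I1_add]
  mul t x y := by rw [← num, ← num, BCl.pb_smul, BCl.I1_smul]
  symm x y := by rw [← num, ← num, B.symm12]
  nd x hx := by
    obtain ⟨F⟩ := ne
    have h1 := hx B.A
    have h2 := hx x
    rw [← num] at h1 h2
    rw [B.symm12] at h1
    exact index_eq (A4_pos _ (K.pr_X F)) h1 h2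
  index x hx := by
    obtain ⟨F⟩ := ne
    rw [hA, ← num, B.symm12] at hx
    rw [← num]
    exact B.index _ _ _ _ B.nef_A B.nef_A (A4_pos _ (K.pr_X F)) hx
  cl_ne F h0 := by
    have h1 := B.prime_pos _ (K.pr_X F)
    rw [K.cl, h0, BCl.pb_zero, BCl.I1_zero] at h1
    exact lt_irrefl _ h1
  cl_cl F F' hne := by
    rw [← num, ← K.cl, ← K.cl]
    exact B.dist _ _ (K.pr_X F) (K.pr_X F') fun h => hne (K.pr_inj _ _ h)
  amp x := by
    obtain ⟨t, ht⟩ := B.ample x
    have hp : 0 < t + (|t| + 1) := by linarith [neg_abs_le t]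
    refine ⟨(t + (|t| + 1))⁻¹, inv_pos.2 hp, fun F => ?_⟩
    have h1 := (mov _ ht (|t| + 1) (by positivity) F).smul (inv_pos.2 hp).le
    have h2 : (t + (|t| + 1))⁻¹ • (t • B.A + x + (|t| + 1) • X.num.A) =
        X.num.A + (t + (|t| + 1))⁻¹ • x := by
      rw [hA, show t • B.A + x + (|t| + 1) • B.A = (t + (|t| + 1)) • B.A + x by module, smul_add,
        smul_smul, inv_mul_cancel₀ hp.ne', one_smul]
    rwa [h2] at h1

/-- nef line bundles are movable -/
theorem mov_of (K : Link X B) (mov : ∀ x, B.Nef (B.pb x) → X.num.Mov x) (x : X.P) (hx : X.Nef x) :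
    X.num.Mov (X.rl x) := mov _ (K.nef x hx)

end Pool.Agent.H72.TH
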